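import Mathlib

/-!
# Lusin sets and the selection principle `S₁(𝒦_Ω, 𝒦_Ω)`: definitions
-/

set_option autoImplicit false

open Set Topology

namespace Pool.Agent.H507_L

/-- The families `𝒦`: families of open sets whose closures cover the space. -/
def KK (X : Type*) [TopologicalSpace X] : Set (Set (Set X)) :=
  {𝒰 | (∀ U ∈ 𝒰, IsOpen U) ∧ (⋃ U ∈ 𝒰, closure U) = univ}

/-- The families `𝒦_Ω`. -/
def KOmega (X : Type*) [TopologicalSpace X] : Set (Set (Set X)) :=
  {𝒰 | 𝒰 ∈ KK X ∧ (∀ U ∈ 𝒰, ¬ Dense U) ∧ ∀ F : Finset X, ∃ U ∈ 𝒰, (F : Set X) ⊆ closure U}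

/-- `𝒦_Ω`-Lindelöf. -/
def KOmegaLindelof (X : Type*) [TopologicalSpace X] : Prop :=
  ∀ 𝒰 ∈ KOmega X, ∃ 𝒱 ⊆ 𝒰, 𝒱.Countable ∧ 𝒱 ∈ KOmega X

/-- `S₁(𝒦_Ω, 𝒦_Ω)`. -/
def S1 (X : Type*) [TopologicalSpace X] : Prop :=
  ∀ 𝒰 : ℕ → Set (Set X), (∀ n, 𝒰 n ∈ KOmega X) →
    ∃ U : ℕ → Set X, (∀ n, U n ∈ 𝒰 n) ∧ range U ∈ KOmega X

/-- Lusin sets. -/
def Lusin (X : Type*) [TopologicalSpace X] : Prop :=
  Uncountable X ∧ ∀ M : Set X, IsMeagre M → M.Countable

/-- All finite powers are Lusin with respect to injective tuples: every closed nowhere dense set of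
`k`-tuples has a countable set that meets each of its injective members. -/
def StrongLusin (X : Type*) [TopologicalSpace X] : Prop :=
  ∀ (k : ℕ) (N : Set (Fin k → X)), IsClosed N → interior N = ∅ →
    ∃ C : Set X, C.Countable ∧ ∀ t ∈ N, Function.Injective t → ∃ i, t i ∈ C

theorem kOmegaLindelof_of_S1 {X : Type*} [TopologicalSpace X] (h : S1 X) : KOmegaLindelof X := by
  intro 𝒰 h𝒰
  obtain ⟨U, hU, hU'⟩ := h (fun _ => 𝒰) (fun _ => h𝒰)
  exact ⟨range U, by rintro _ ⟨n, rfl⟩; exact hU n, countable_range U, hU'⟩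

/-- The property of all finite powers passes to subspaces. -/
theorem StrongLusin.subspace {X : Type*} [TopologicalSpace X] (h : StrongLusin X) (Y : Set X) :
    StrongLusin Y := by
  intro k N hN hN'
  have hnd : IsNowhereDense N := by rw [hN.isNowhereDense_iff]; exact hN'
  have hind : IsInducing (fun (t : Fin k → Y) => fun i => (t i : X)) := by
    refine ⟨?_⟩
    simp only [Pi.topologicalSpace, instTopologicalSpaceSubtype, induced_iInf, induced_compose]
    rfl
  have h1 := hind.isNowhereDense_image hnd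
  have h2 : IsNowhereDense (closure ((fun (t : Fin k → Y) => fun i => (t i : X)) '' N)) := h1.closure
  obtain ⟨C, hC, hC'⟩ := h k _ isClosed_closure (by
    rw [isClosed_closure.isNowhereDense_iff] at h2; exact h2)
  refine ⟨Subtype.val ⁻¹' C, hC.preimage Subtype.val_injective, fun t ht hinj => ?_⟩
  exact hC' _ (subset_closure (mem_image_of_mem _ ht)) (Subtype.val_injective.comp hinj)

/-- Co-countable subspaces of Lusin sets are Lusin sets. -/
theorem Lusin.compl {X : Type*} [TopologicalSpace X] (h : Lusin X) {C : Set X} (hC : C.Countable) :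
    Lusin (Cᶜ : Set X) := by
  refine ⟨?_, fun M hM => ?_⟩
  · by_contra hcon
    rw [not_uncountable_iff] at hcon
    have h1 : (Cᶜ : Set X).Countable := by rwa [← countable_coe_iff]
    have h2 : (univ : Set X).Countable := by
      rw [← union_compl_self C]; exact hC.union h1
    exact h.1.not_countable (countable_univ_iff.1 h2)
  · exact countable_of_injective_of_countable_image Subtype.val_injective.injOn
      (h.2 _ hM.image_val)

/-- Meagre sets in a space all of whose powers are Lusin are countable. -/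
theorem StrongLusin.countable_of_meagre {X : Type*} [TopologicalSpace X] (h : StrongLusin X)
    {M : Set X} (hM : IsMeagre M) : M.Countable := by
  rw [isMeagre_iff_countable_union_isNowhereDense] at hM
  obtain ⟨S, hS, hSc, hMS⟩ := hM
  refine Countable.mono hMS ?_
  rw [sUnion_eq_biUnion]
  refine hSc.biUnion fun A hA => ?_
  have e : IsHomeomorph (fun (t : Fin 1 → X) => t 0) :=
    (Homeomorph.funUnique (Fin 1) X).isHomeomorph
  have hcl := (hS A hA).closure
  rw [isClosed_closure.isNowhereDense_iff] at hcl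
  obtain ⟨C, hC, hC'⟩ := h 1 ((fun t : Fin 1 → X => t 0) ⁻¹' closure A)
    (isClosed_closure.preimage (continuous_apply 0)) (by
      rw [← e.isOpenMap.preimage_interior_eq_interior_preimage e.continuous, hcl, preimage_empty])
  refine hC.mono fun a ha => ?_
  obtain ⟨i, hi⟩ := hC' (fun _ => a) (subset_closure ha) (Function.injective_of_subsingleton _)
  exact hi

end Pool.Agent.H507_L
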