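import Mathlib
import Pool.Agent.H507_L.Defs

/-!
# Small `𝒦_Ω`-Lindelöf spaces have the selection property
-/

set_option autoImplicit false

open Set Topology

namespace Pool.Agent.H507_L



theorem kOmega_finite {X : Type*} [TopologicalSpace X] [Finite X] (𝒰 : Set (Set X)) :
    𝒰 ∉ KOmega X := by
  rintro ⟨-, h2, h3⟩
  obtain ⟨U, hU, hF⟩ := h3 (Set.toFinite (univ : Set X)).toFinset
  apply h2 U hU
  intro x
  exact hF (by simp)

theorem S1_of_lt_cov {X : Type*} [TopologicalSpace X] (hL : KOmegaLindelof X)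
    (hcov : ∀ F : X → Set (ℕ → ℕ), (∀ x, IsMeagre (F x)) → (⋃ x, F x) ≠ univ) : S1 X := by
  classical
  intro 𝒰 h𝒰
  rcases finite_or_infinite X with hfin | hinf
  · exact absurd (h𝒰 0) (kOmega_finite _)
  · obtain ⟨e⟩ : Nonempty (X ≃ Finset X) := Cardinal.eq.1 (Cardinal.mk_finset_of_infinite X).symm
    have h1 : ∀ n, ∃ V : ℕ → Set X, range V ⊆ 𝒰 n ∧ range V ∈ KOmega X := by
      intro n
      obtain ⟨𝒱, hsub, hc, hK⟩ := hL (𝒰 n) (h𝒰 n)
      have hne : 𝒱.Nonempty := by
        obtain ⟨U, hU, -⟩ := hK.2.2 ∅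
        exact ⟨U, hU⟩
      obtain ⟨V, rfl⟩ := hc.exists_eq_range hne
      exact ⟨V, hsub, hK⟩
    choose V hVsub hVK using h1
    set O : Finset X → Set (ℕ → ℕ) := fun F => {f | ∃ n, (F : Set X) ⊆ closure (V n (f n))} with hO
    have hOo : ∀ F, IsOpen (O F) := by
      intro F
      have : O F = ⋃ n, (fun f : ℕ → ℕ => f n) ⁻¹' {m | (F : Set X) ⊆ closure (V n m)} := by
        ext f
        rw [Set.mem_iUnion]
        exact Iff.rfl
      rw [this]
      exact isOpen_iUnion fun n => (isOpen_discrete _).preimage (continuous_apply n)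
    have hOd : ∀ F, Dense (O F) := by
      intro F f
      have hm : ∀ n, ∃ m, (F : Set X) ⊆ closure (V n m) := by
        intro n
        obtain ⟨U, ⟨m, rfl⟩, h⟩ := (hVK n).2.2 F
        exact ⟨m, h⟩
      choose m hm using hm
      refine mem_closure_of_tendsto (f := fun k => Function.update f k (m k)) (b := Filter.atTop)
        ?_ (Filter.Eventually.of_forall fun k => ?_)
      · rw [tendsto_pi_nhds]
        intro i
        refine tendsto_const_nhds.congr' ?_
        filter_upwards [Filter.eventually_gt_atTop i] with k hk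
        rw [Function.update_of_ne hk.ne]
      · refine ⟨k, ?_⟩
        rw [Function.update_self]
        exact hm k
    have hmea : ∀ x, IsMeagre ((O (e x))ᶜ) := by
      intro x
      unfold IsMeagre
      rw [compl_compl]
      exact residual_of_dense_open (hOo _) (hOd _)
    have hne := hcov (fun x => (O (e x))ᶜ) hmea
    obtain ⟨f, hf⟩ := (Set.ne_univ_iff_exists_notMem _).1 hne
    have hf' : ∀ F, f ∈ O F := by
      intro F
      by_contra hc
      apply hf
      rw [Set.mem_iUnion]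
      refine ⟨e.symm F, ?_⟩
      show f ∈ (O (e (e.symm F)))ᶜ
      rw [Equiv.apply_symm_apply]
      exact hc
    refine ⟨fun n => V n (f n), fun n => hVsub n ⟨f n, rfl⟩, ⟨?_, ?_⟩, ?_, ?_⟩
    · rintro U ⟨n, rfl⟩
      exact (h𝒰 n).1.1 _ (hVsub n ⟨f n, rfl⟩)
    · rw [Set.eq_univ_iff_forall]
      intro x
      obtain ⟨n, hn⟩ := hf' {x}
      rw [Set.mem_iUnion₂]
      exact ⟨V n (f n), ⟨n, rfl⟩, hn (by simp)⟩
    · rintro U ⟨n, rfl⟩
      exact (h𝒰 n).2.1 _ (hVsub n ⟨f n, rfl⟩)
    · intro F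
      obtain ⟨n, hn⟩ := hf' F
      exact ⟨V n (f n), ⟨n, rfl⟩, hn⟩

end Pool.Agent.H507_L
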